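import Pool.Agent.W758.AHC.Stm2

/-!
# AHC-LO2: the two-valued Littlewood-Offord bound (helper790, for helper758)
-/

set_option autoImplicit false

namespace Pool.Agent.W790.AHC

open Pool.Agent.W758.AHC

theorem lo2 : S_LO → S_LO2 := by
  intro hLO ι _ s w w0 X hw hX
  set w' : Option ι → ℚ := fun o => o.elim (-1) w with hw'
  set g : Finset ι → Finset (Option ι) := fun x =>
    if w0 + ∑ i ∈ x, w i = 0 then x.map Function.Embedding.some else Finset.insertNone x with hg
  have hinj : Function.Injective g := by
    have h1 : ∀ x, Finset.eraseNone (g x) = x := by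
      intro x
      rw [hg]
      dsimp only
      split_ifs
      · exact Finset.eraseNone_map_some x
      · exact Finset.eraseNone_insertNone x
    intro x y hxy
    rw [← h1 x, hxy, h1 y]
  have h := hLO (Option ι) (Finset.insertNone s) w' (-w0) (X.image g) ?_ ?_
  · rw [Finset.card_image_of_injective X hinj, Finset.card_insertNone] at h
    exact h
  · intro o ho
    cases o with
    | none =>
      rw [hw']
      simp
    | some i =>
      rw [Finset.some_mem_insertNone] at ho
      exact hw i ho
  · intro x' hx'
    rw [Finset.mem_image] at hx'
    obtain ⟨x, hx, rfl⟩ := hx'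
    obtain ⟨hs, h01⟩ := hX x hx
    have h2 : ∑ i ∈ x, w' (some i) = ∑ i ∈ x, w i := rfl
    rw [hg]
    dsimp only
    split_ifs with h0
    · refine ⟨?_, ?_⟩
      · intro o ho
        rw [Finset.mem_map] at ho
        obtain ⟨i, hi, rfl⟩ := ho
        exact Finset.some_mem_insertNone.2 (hs hi)
      · rw [Finset.sum_map]
        show ∑ i ∈ x, w' (some i) = _
        rw [h2]
        linarith
    · refine ⟨?_, ?_⟩
      · intro o ho
        cases o with
        | none => exact Finset.none_mem_insertNone
        | some i =>
          rw [Finset.some_mem_insertNone] at ho ⊢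
          exact hs ho
      · rw [Finset.sum_insertNone, h2]
        have h1 := h01.resolve_left h0
        have h3 : w' none = -1 := rfl
        rw [h3]
        linarith

end Pool.Agent.W790.AHC
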